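import Pool.Agent.helper74.XP.SpecP

set_option autoImplicit false

open Complex Metric Set Filter Topology MeasureTheory MPS PPS Pool.Agent.helper16.Multibrot

noncomputable section

namespace XPP

theorem DLB_diff (f : Polynomial ℂ) (m : ℕ) : Differentiable ℂ (it f m) := by
  unfold it
  have h : Differentiable ℂ (fun w : ℂ => f.eval w) := f.differentiable
  exact h.iterate m

theorem DLB_add (f : Polynomial ℂ) (s t : ℕ) (z : ℂ) :
    deriv (it f (s + t)) z = deriv (it f s) (it f t z) * deriv (it f t) z := by
  have h : it f (s + t) = it f s ∘ it f t := by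
    unfold it
    exact Function.iterate_add _ s t
  rw [h]
  exact deriv_comp z ((DLB_diff f s) (it f t z)) ((DLB_diff f t) z)

theorem DLB : DLB_stmt := by
  intro f k z hR
  obtain ⟨⟨hk, hmin⟩, hlt⟩ := hR
  have hper : it f k z = z := by
    have h := Function.isPeriodicPt_minimalPeriod (fun w : ℂ => f.eval w) z
    rw [hmin] at h
    exact h
  have hmlt : mlt f k z = deriv (it f k) z := rfl
  have hperl : ∀ l : ℕ, it f (l * k) z = z := by
    intro l
    induction l with
    | zero => simp [it]
    | succ l ih =>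
      have h : it f ((l + 1) * k) z = it f (l * k) (it f k z) := by
        unfold it
        rw [← Function.iterate_add_apply]
        congr 2
        ring
      rw [h, hper, ih]
  have hpow : ∀ l : ℕ, deriv (it f (l * k)) z = (mlt f k z) ^ l := by
    intro l
    induction l with
    | zero =>
      have : it f (0 * k) = id := by
        unfold it
        rw [Nat.zero_mul]
        rfl
      rw [this, deriv_id, pow_zero]
    | succ l ih =>
      have h : (l + 1) * k = l * k + k := by ring
      rw [h, DLB_add, hper, ih, pow_succ, hmlt]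
  have hdec : ∀ m : ℕ, ‖deriv (it f m) z‖ = ‖deriv (it f (m % k)) z‖ * ‖mlt f k z‖ ^ (m / k) := by
    intro m
    have h : m = m % k + (m / k) * k := by
      rw [mul_comm]; exact (Nat.mod_add_div m k).symm
    conv_lhs => rw [h]
    rw [DLB_add, hperl, hpow, norm_mul, norm_pow]
  have hpos : ∀ s < k, 0 < ‖deriv (it f s) z‖ := by
    intro s hs
    rw [norm_pos_iff]
    intro h0
    have h : k = (k - s) + s := by omega
    have h1 : mlt f k z = 0 := by
      rw [hmlt]
      conv_lhs => rw [h]
      rw [DLB_add, h0, mul_zero]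
    rw [h1, norm_zero] at hlt
    linarith
  obtain ⟨s₀, hs₀, hmins⟩ := Finset.exists_min_image (Finset.range k)
    (fun s => ‖deriv (it f s) z‖) ⟨0, Finset.mem_range.mpr hk⟩
  have hκ : 0 < ‖deriv (it f s₀) z‖ := hpos s₀ (Finset.mem_range.mp hs₀)
  have hlow : ∀ m : ℕ, ‖deriv (it f s₀) z‖ * ‖mlt f k z‖ ^ (m / k) ≤ ‖deriv (it f m) z‖ := by
    intro m
    rw [hdec m]
    exact mul_le_mul_of_nonneg_right (hmins _ (Finset.mem_range.mpr (Nat.mod_lt m hk)))
      (by positivity)
  refine ⟨⟨_, hκ, fun m => ?_⟩, ?_⟩
  · refine le_trans ?_ (hlow m)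
    exact le_mul_of_one_le_right hκ.le (one_le_pow₀ hlt.le)
  · refine tendsto_atTop_mono hlow ?_
    apply Tendsto.const_mul_atTop hκ
    exact (tendsto_pow_atTop_atTop_of_one_lt hlt).comp (Nat.tendsto_div_const_atTop hk.ne')

end XPP
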